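import Pool.Agent.AN90.Main

/-!
For every function `ω` tending to infinity (however slowly) and every function `f` there is a
finitely generated group `G`, solvable of derived length at most three and of exponential growth,
with Foelner function at most `exp (n ω(n))` for all large `n` and at most `64 ^ n` for all `n` in
infinitely many windows `[N, f(N)]`, which has infinite Assouad-Nagata dimension.
-/

set_option autoImplicit false
open Classical

namespace Pool.Agent.Results.MP_90a473_al.NearExponential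

theorem result :
    ∀ (ω : ℕ → ℝ), Filter.Tendsto ω Filter.atTop Filter.atTop → ∀ f : ℕ → ℕ,
    ∃ (G : Type) (_ : Group G) (S : Finset G),
      Subgroup.closure (S : Set G) = ⊤ ∧
      derivedSeries G 3 = ⊥ ∧
      (∃ c : ℝ, 1 < c ∧ ∀ n : ℕ,
        c ^ n ≤ (({g : G | (SimpleGraph.fromRel (fun x y : G => x⁻¹ * y ∈ S)).dist 1 g ≤ n}.ncard : ℕ) : ℝ)) ∧
      (∃ n₀ : ℕ, ∀ n : ℕ, n₀ ≤ n → ∃ F : Finset G, F.Nonempty ∧
        n * (F.filter (fun g => ∃ s ∈ S, g * s ∉ F ∨ g * s⁻¹ ∉ F)).card ≤ F.card ∧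
        (F.card : ℝ) ≤ Real.exp (n * ω n)) ∧
      (∀ N₀ : ℕ, ∃ N : ℕ, N₀ ≤ N ∧ ∀ n : ℕ, N ≤ n → n ≤ f N → ∃ F : Finset G, F.Nonempty ∧
        n * (F.filter (fun g => ∃ s ∈ S, g * s ∉ F ∨ g * s⁻¹ ∉ F)).card ≤ F.card ∧
        F.card ≤ 64 ^ n) ∧
      ¬ ∃ (d C : ℕ), ∀ r : ℕ, 1 ≤ r →
        ∃ (c : G → Fin (d + 1)) (k : G → G), ∀ x y : G, c x = c y →
          (k x = k y → (SimpleGraph.fromRel (fun a b : G => a⁻¹ * b ∈ S)).dist x y ≤ C * r) ∧
          (k x ≠ k y → r < (SimpleGraph.fromRel (fun a b : G => a⁻¹ * b ∈ S)).dist x y) := by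
  intro ω hω f
  obtain ⟨k, q, h1, h2, h3, h4⟩ := Pool.Agent.AN90.main ω hω f
  refine ⟨Pool.Agent.AN90.GG k q, (Pool.Agent.AN90.GG k q).toGroup, Pool.Agent.AN90.SS k q,
    Pool.Agent.AN90.closure_SS k q, ?_, ?_, ?_, ?_, ?_⟩
  · exact Pool.Agent.AN90.derived_three k q
  · exact h1
  · obtain ⟨n₀, hn⟩ := h2
    refine ⟨n₀, fun n hn' => ?_⟩
    obtain ⟨F, hF1, hF2, hF3⟩ := hn n hn'
    refine ⟨F, hF1, ?_, hF3⟩
    convert hF2
  · intro N₀
    obtain ⟨N, hN, hn⟩ := h3 N₀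
    refine ⟨N, hN, fun n hn1 hn2 => ?_⟩
    obtain ⟨F, hF1, hF2, hF3⟩ := hn n hn1 hn2
    refine ⟨F, hF1, ?_, hF3⟩
    convert hF2
  · exact h4

end Pool.Agent.Results.MP_90a473_al.NearExponential
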