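import Pool.Agent.MET90.Main

/-!
Every finitely generated virtually metabelian group whose Foelner function is at most exponential at
infinitely many scales has finite Assouad-Nagata dimension.
-/

set_option autoImplicit false
open Classical

namespace Pool.Agent.Results.MP_90a473_al.VirtuallyMetabelian

theorem result :
    ∀ (G : Type) [Group G] (S : Finset G),
      Subgroup.closure (S : Set G) = ⊤ →
      (∃ H : Subgroup G, H.FiniteIndex ∧ derivedSeries H 2 = ⊥) →
      (∃ C : ℕ, ∀ N : ℕ, ∃ n : ℕ, N ≤ n ∧ ∃ F : Finset G, F.Nonempty ∧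
        n * (F.filter (fun g => ∃ s ∈ S, g * s ∉ F ∨ g * s⁻¹ ∉ F)).card ≤ F.card ∧
        F.card ≤ C ^ n) →
      ∃ (d C : ℕ), ∀ r : ℕ, 1 ≤ r →
        ∃ (c : G → Fin (d + 1)) (k : G → G), ∀ x y : G, c x = c y →
          (k x = k y → (SimpleGraph.fromRel (fun a b : G => a⁻¹ * b ∈ S)).dist x y ≤ C * r) ∧
          (k x ≠ k y → r < (SimpleGraph.fromRel (fun a b : G => a⁻¹ * b ∈ S)).dist x y) := by
  intro G _ S hS hH hF
  exact Pool.Agent.MET90.frozen_of_FAN S hS (Pool.Agent.MET90.main S hS hH hF)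

end Pool.Agent.Results.MP_90a473_al.VirtuallyMetabelian
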